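import Mathlib

/-!
# The Rank-Ramsey function

`nu d n` is the least rank, over the real numbers, of `A_G + I` over all graphs `G` on `n`
vertices with clique number at most `d`.
-/

set_option autoImplicit false

namespace Pool.Agent.MP_95a368_co

open scoped Classical in
/-- `ν_d(n)`: the least rank (over `ℝ`) of `A_G + I` over all simple graphs `G` on `n` vertices
with clique number at most `d`.  (For `d ≥ 1` the set below contains the rank of the identity
matrix, given by the graph without edges, so the infimum of this set of natural numbers is a
minimum.) -/
noncomputable def nu (d n : ℕ) : ℕ :=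
  sInf {r : ℕ | ∃ G : SimpleGraph (Fin n), G.cliqueNum ≤ d ∧
    (G.adjMatrix ℝ + 1 : Matrix (Fin n) (Fin n) ℝ).rank = r}

end Pool.Agent.MP_95a368_co
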