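import Pool.Agent.Lib.MP_95a368_co.Defs

/-!
# Polynomial separation for the Rank-Ramsey function

Let `m` be odd.  The base vertices are the subsets of even size of `Fin (3 m)`; for two of them let
`y` be half of their Hamming distance.  The integer matrix with entry `∏_{j=1}^{m} (j - y) / m!`
has diagonal `1`, vanishes for `1 ≤ y ≤ m` and equals `- w`, `w = (y - 1).choose m`, for `y > m`.
Three even sets cannot have pairwise half distances greater than `m`, so this is a weighted
triangle-free graph, and the rank of the matrix is at most the number of subsets of size at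
most `m`.

To get a graph, replace each base vertex by the `p ^ 2` lines `x ↦ a x + b` of the affine plane over
`ZMod p`, and join two lines in different layers whose weight is `w` if the lines are different and
meet at one of the first `w` abscissas.  If `N` is the incidence matrix of lines and of points with
abscissa below `w` then this 0/1 matrix is `N ^ T N - w I`.  The terms `- w I` assemble to the
weighted matrix, tensored with the identity matrix of size `p ^ 2`, and the rest has small rank.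
-/

set_option autoImplicit false

open Finset

namespace Pool.Agent.MP_95a368_co

/-- even subsets of `Fin (3 m)` -/
abbrev EV (m : ℕ) := {A : Finset (Fin (3 * m)) // Even A.card}

/-- half of the Hamming distance of two even sets -/
def hd {m : ℕ} (A B : EV m) : ℕ := (symmDiff A.1 B.1).card / 2

lemma card_symmDiff_add {α : Type*} [DecidableEq α] (A B : Finset α) :
    (symmDiff A B).card + 2 * (A ∩ B).card = A.card + B.card := by
  have h1 : symmDiff A B = (A \ B) ∪ (B \ A) := rfl
  have h2 : ((A \ B) ∪ (B \ A)).card = (A \ B).card + (B \ A).card := by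
    apply Finset.card_union_of_disjoint
    exact disjoint_sdiff_sdiff
  have h3 := Finset.card_sdiff_add_card_inter A B
  have h4 := Finset.card_sdiff_add_card_inter B A
  rw [Finset.inter_comm B A] at h4
  rw [h1, h2]; omega

lemma two_mul_hd {m : ℕ} (A B : EV m) : 2 * hd A B = (symmDiff A.1 B.1).card := by
  have h := card_symmDiff_add A.1 B.1
  obtain ⟨a, ha⟩ := A.2
  obtain ⟨b, hb⟩ := B.2
  unfold hd
  omega

lemma hd_comm {m : ℕ} (A B : EV m) : hd A B = hd B A := by
  unfold hd; rw [symmDiff_comm]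

lemma hd_self {m : ℕ} (A : EV m) : hd A A = 0 := by
  unfold hd; simp

lemma hd_eq_zero {m : ℕ} {A B : EV m} : hd A B = 0 ↔ A = B := by
  constructor
  · intro h
    have h2 := two_mul_hd A B
    rw [h] at h2
    have h3 : symmDiff A.1 B.1 = ∅ := by
      rw [← Finset.card_eq_zero]; omega
    have h4 : A.1 = B.1 := symmDiff_eq_bot.mp h3
    exact Subtype.ext h4
  · rintro rfl; exact hd_self A

lemma hd_le {m : ℕ} (A B : EV m) : 2 * hd A B ≤ 3 * m := by
  rw [two_mul_hd]
  calc _ ≤ (Finset.univ : Finset (Fin (3 * m))).card := Finset.card_le_card (Finset.subset_univ _)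
    _ = 3 * m := by simp

lemma hd_triangle {m : ℕ} (A B C : EV m) : hd A B + hd B C + hd A C ≤ 3 * m := by
  have key : (symmDiff A.1 B.1).card + (symmDiff B.1 C.1).card + (symmDiff A.1 C.1).card
      ≤ 2 * (3 * m) := by
    have e : ∀ S : Finset (Fin (3 * m)), S.card = ∑ i : Fin (3 * m), if i ∈ S then 1 else 0 := by
      intro S; simp
    rw [e, e, e, ← Finset.sum_add_distrib, ← Finset.sum_add_distrib]
    calc _ ≤ ∑ i : Fin (3 * m), 2 := by
          apply Finset.sum_le_sum
          intro i _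
          by_cases h1 : i ∈ A.1 <;> by_cases h2 : i ∈ B.1 <;> by_cases h3 : i ∈ C.1 <;>
            simp [Finset.mem_symmDiff, h1, h2, h3]
      _ = 2 * (3 * m) := by simp; ring
  rw [← two_mul_hd, ← two_mul_hd, ← two_mul_hd] at key
  omega

/-- the weight -/
def wt {m : ℕ} (A B : EV m) : ℕ := Nat.choose (hd A B - 1) m

lemma wt_comm {m : ℕ} (A B : EV m) : wt A B = wt B A := by
  unfold wt; rw [hd_comm]

lemma wt_pos {m : ℕ} (hm : 0 < m) {A B : EV m} (h : 0 < wt A B) : m < hd A B := by
  unfold wt at h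
  by_contra hc
  push Not at hc
  rw [Nat.choose_eq_zero_of_lt (by omega)] at h
  exact lt_irrefl _ h

lemma wt_le {m : ℕ} (A B : EV m) : wt A B ≤ 8 ^ m := by
  unfold wt
  calc Nat.choose (hd A B - 1) m ≤ 2 ^ (hd A B - 1) := Nat.choose_le_two_pow _ _
    _ ≤ 2 ^ (3 * m) := by
        apply Nat.pow_le_pow_right (by norm_num)
        have := hd_le A B
        omega
    _ = 8 ^ m := by rw [pow_mul]; norm_num

/-- the polynomial identity -/
lemma poly_identity {m : ℕ} (hm : Odd m) (y : ℕ) :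
    (if y = 0 then (1 : ℝ) else 0) - (Nat.choose (y - 1) m : ℝ)
      = (∏ j ∈ Finset.range m, ((j : ℝ) + 1 - y)) / (m.factorial : ℝ) := by
  have hm0 : 0 < m := hm.pos
  have hf : (m.factorial : ℝ) ≠ 0 := by exact_mod_cast Nat.factorial_ne_zero m
  rcases Nat.eq_zero_or_pos y with hy | hy
  · subst hy
    have h1 : (∏ j ∈ Finset.range m, ((j : ℝ) + 1 - (0 : ℕ))) = (m.factorial : ℝ) := by
      rw [← Finset.prod_range_add_one_eq_factorial]
      push_cast
      apply Finset.prod_congr rfl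
      intro j _; ring
    rw [h1, div_self hf]
    simp [Nat.choose_eq_zero_of_lt hm0]
  · rcases Nat.lt_or_ge (y - 1) m with hlt | hge
    · rw [Nat.choose_eq_zero_of_lt hlt]
      have h0 : (∏ j ∈ Finset.range m, ((j : ℝ) + 1 - y)) = 0 := by
        apply Finset.prod_eq_zero (i := y - 1) (Finset.mem_range.mpr hlt)
        have : ((y - 1 : ℕ) : ℝ) = (y : ℝ) - 1 := by
          rw [Nat.cast_sub hy]; norm_num
        rw [this]; ring
      rw [h0]
      simp [hy.ne']
    · have h1 : (∏ j ∈ Finset.range m, ((j : ℝ) + 1 - y))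
          = - (((y - 1).descFactorial m : ℕ) : ℝ) := by
        rw [Nat.descFactorial_eq_prod_range]
        push_cast
        have : ∀ j ∈ Finset.range m, ((j : ℝ) + 1 - y) = (-1) * ((y - 1 - j : ℕ) : ℝ) := by
          intro j hj
          have hj' := Finset.mem_range.mp hj
          rw [Nat.cast_sub (by omega), Nat.cast_sub hy]
          push_cast; ring
        rw [Finset.prod_congr rfl this, Finset.prod_mul_distrib, Finset.prod_const,
          Finset.card_range, hm.neg_one_pow]
        ring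
      rw [h1, Nat.descFactorial_eq_factorial_mul_choose]
      push_cast
      rw [if_neg hy.ne']
      field_simp
      ring


/-! ### the span of low degree monomials -/

/-- indicator of `T ⊆ A` -/
def mono {m : ℕ} (T : Finset (Fin (3 * m))) : EV m → ℝ := fun A => if T ⊆ A.1 then 1 else 0

/-- functions of degree at most `k` -/
def Wk (m k : ℕ) : Submodule ℝ (EV m → ℝ) :=
  Submodule.span ℝ (Set.range (fun T : {T : Finset (Fin (3 * m)) // T.card ≤ k} => mono T.1))

lemma mono_mem {m k : ℕ} {T : Finset (Fin (3 * m))} (h : T.card ≤ k) : mono T ∈ Wk m k :=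
  Submodule.subset_span ⟨⟨T, h⟩, rfl⟩

lemma one_mem (m : ℕ) : (fun _ => (1 : ℝ)) ∈ Wk m 0 := by
  have : (fun _ => (1 : ℝ)) = (mono (m := m) ∅) := by
    funext A; simp [mono]
  rw [this]; exact mono_mem (by simp)

lemma Wk_mono {m k l : ℕ} (h : k ≤ l) : Wk m k ≤ Wk m l := by
  unfold Wk
  apply Submodule.span_mono
  rintro _ ⟨T, rfl⟩
  exact ⟨⟨T.1, T.2.trans h⟩, rfl⟩

/-- multiplication by an affine function raises the degree by one -/
lemma affine_mul_mem {m k : ℕ} (c0 : ℝ) (c : Fin (3 * m) → ℝ) {f : EV m → ℝ} (hf : f ∈ Wk m k) :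
    (fun A => (c0 + ∑ i, c i * (if i ∈ A.1 then 1 else 0)) * f A) ∈ Wk m (k + 1) := by
  unfold Wk at hf
  induction hf using Submodule.span_induction with
  | mem x hx =>
    obtain ⟨T, rfl⟩ := hx
    have : (fun A : EV m => (c0 + ∑ i, c i * (if i ∈ A.1 then 1 else 0)) * mono T.1 A)
        = c0 • mono T.1 + ∑ i, c i • mono (insert i T.1) := by
      funext A
      simp only [Pi.add_apply, Pi.smul_apply, Finset.sum_apply, smul_eq_mul, mono, add_mul,
        Finset.sum_mul]
      congr 1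
      apply Finset.sum_congr rfl
      intro i _
      by_cases h1 : i ∈ A.1 <;> by_cases h2 : T.1 ⊆ A.1 <;>
        simp [Finset.insert_subset_iff, h1, h2]
    rw [this]
    apply Submodule.add_mem
    · exact Submodule.smul_mem _ _ (mono_mem (T.2.trans (Nat.le_succ k)))
    · apply Submodule.sum_mem
      intro i _
      apply Submodule.smul_mem _ _ (mono_mem _)
      exact (Finset.card_insert_le _ _).trans (Nat.succ_le_succ T.2)
  | zero =>
    convert Submodule.zero_mem (Wk m (k + 1)) using 1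
    funext A; simp
  | add x y _ _ hx hy =>
    have := Submodule.add_mem _ hx hy
    convert this using 1
    funext A; simp [mul_add]
  | smul a x _ hx =>
    have := Submodule.smul_mem _ a hx
    convert this using 1
    funext A; simp only [Pi.smul_apply, smul_eq_mul]; ring

lemma hd_affine {m : ℕ} (A B : EV m) :
    (hd A B : ℝ) = (B.1.card : ℝ) / 2 +
      ∑ i, ((1 - 2 * (if i ∈ B.1 then (1 : ℝ) else 0)) / 2) * (if i ∈ A.1 then 1 else 0) := by
  have h := two_mul_hd A B
  have e : ∀ S : Finset (Fin (3 * m)), (S.card : ℝ)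
      = ∑ i : Fin (3 * m), if i ∈ S then (1 : ℝ) else 0 := by
    intro S; simp
  have h2 : (2 : ℝ) * (hd A B : ℝ) = ((symmDiff A.1 B.1).card : ℝ) := by exact_mod_cast h
  have h3 : ((symmDiff A.1 B.1).card : ℝ) = (B.1.card : ℝ) +
      ∑ i, (1 - 2 * (if i ∈ B.1 then (1 : ℝ) else 0)) * (if i ∈ A.1 then 1 else 0) := by
    rw [e, e B.1, ← Finset.sum_add_distrib]
    apply Finset.sum_congr rfl
    intro i _
    by_cases h1 : i ∈ A.1 <;> by_cases h2 : i ∈ B.1 <;>
      (simp [Finset.mem_symmDiff, h1, h2]; try norm_num)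
  have h4 : ∑ i, ((1 - 2 * (if i ∈ B.1 then (1 : ℝ) else 0)) / 2) * (if i ∈ A.1 then 1 else 0)
      = (∑ i, (1 - 2 * (if i ∈ B.1 then (1 : ℝ) else 0)) * (if i ∈ A.1 then 1 else 0)) / 2 := by
    rw [Finset.sum_div]
    apply Finset.sum_congr rfl
    intro i _; ring
  rw [h4]
  linarith

lemma prod_mem {m : ℕ} (B : EV m) (k : ℕ) :
    (fun A : EV m => ∏ j ∈ Finset.range k, ((j : ℝ) + 1 - (hd A B : ℝ))) ∈ Wk m k := by
  induction k with
  | zero => simpa using one_mem m
  | succ k ih =>
    have := affine_mul_mem ((k : ℝ) + 1 - (B.1.card : ℝ) / 2)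
      (fun i => -((1 - 2 * (if i ∈ B.1 then (1 : ℝ) else 0)) / 2)) ih
    convert this using 1
    funext A
    rw [Finset.prod_range_succ, mul_comm]
    congr 1
    rw [hd_affine A B]
    rw [show ∑ i, -((1 - 2 * (if i ∈ B.1 then (1 : ℝ) else 0)) / 2) * (if i ∈ A.1 then 1 else 0)
      = - ∑ i, ((1 - 2 * (if i ∈ B.1 then (1 : ℝ) else 0)) / 2) * (if i ∈ A.1 then 1 else 0) by
        rw [← Finset.sum_neg_distrib]
        apply Finset.sum_congr rfl
        intro i _; ring]
    ring

/-- the weighted matrix column is a low degree function -/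
lemma beta_mem {m : ℕ} (hm : Odd m) (B : EV m) :
    (fun A : EV m => (if A = B then (1 : ℝ) else 0) - (wt A B : ℝ)) ∈ Wk m m := by
  have := Submodule.smul_mem _ ((m.factorial : ℝ)⁻¹) (prod_mem B m)
  convert this using 1
  funext A
  have h := poly_identity hm (hd A B)
  simp only [hd_eq_zero] at h
  simp only [Pi.smul_apply, smul_eq_mul]
  rw [show (wt A B : ℝ) = (Nat.choose (hd A B - 1) m : ℝ) from rfl, h]
  rw [div_eq_mul_inv, mul_comm]

/-! ### the graph -/

/-- vertices -/
abbrev Vt (m p : ℕ) := EV m × (ZMod p × ZMod p)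

/-- the graph -/
def Gr (m p : ℕ) : SimpleGraph (Vt m p) where
  Adj P Q := P.2 ≠ Q.2 ∧ ∃ i : ℕ, i < wt P.1 Q.1 ∧ P.2.1 * (i : ZMod p) + P.2.2 = Q.2.1 * i + Q.2.2
  symm := ⟨by
    rintro P Q ⟨h1, i, h2, h3⟩
    exact ⟨h1.symm, i, by rwa [wt_comm], h3.symm⟩⟩
  loopless := ⟨by
    rintro P ⟨h1, _⟩
    exact h1 rfl⟩

lemma Gr_cliqueFree {m p : ℕ} (hm : 0 < m) : (Gr m p).CliqueFree 3 := by
  intro s hs
  rw [SimpleGraph.is3Clique_iff] at hs
  obtain ⟨P, Q, R, ⟨_, i, hi, _⟩, ⟨_, j, hj, _⟩, ⟨_, k, hk, _⟩, _⟩ := hs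
  have h1 := wt_pos hm (lt_of_le_of_lt (Nat.zero_le _) hi)
  have h2 := wt_pos hm (lt_of_le_of_lt (Nat.zero_le _) hj)
  have h3 := wt_pos hm (lt_of_le_of_lt (Nat.zero_le _) hk)
  have h4 := hd_triangle P.1 Q.1 R.1
  omega

lemma count_eq {m p : ℕ} [Fact p.Prime] (hp : 8 ^ m ≤ p) (P Q : Vt m p) (hne : P.2 ≠ Q.2) :
    (∑ i ∈ Finset.range (wt P.1 Q.1),
      if P.2.1 * (i : ZMod p) + P.2.2 = Q.2.1 * i + Q.2.2 then (1 : ℝ) else 0)
      = (if ∃ i : ℕ, i < wt P.1 Q.1 ∧ P.2.1 * (i : ZMod p) + P.2.2 = Q.2.1 * i + Q.2.2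
          then 1 else 0) := by
  classical
  by_cases h : ∃ i : ℕ, i < wt P.1 Q.1 ∧ P.2.1 * (i : ZMod p) + P.2.2 = Q.2.1 * i + Q.2.2
  · rw [if_pos h]
    obtain ⟨i, hi, he⟩ := h
    rw [Finset.sum_eq_single i]
    · rw [if_pos he]
    · intro j hj hji
      rw [if_neg]
      intro he'
      have hj' := Finset.mem_range.mp hj
      have hw := wt_le P.1 Q.1
      have hsub : (P.2.1 - Q.2.1) * ((i : ZMod p) - j) = 0 := by
        linear_combination he - he'
      rcases mul_eq_zero.mp hsub with h0 | h0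
      · have h01 : P.2.1 = Q.2.1 := sub_eq_zero.mp h0
        apply hne
        apply Prod.ext h01
        rw [h01] at he
        exact add_left_cancel he
      · have h02 : (i : ZMod p) = j := sub_eq_zero.mp h0
        rw [ZMod.natCast_eq_natCast_iff'] at h02
        rw [Nat.mod_eq_of_lt (by omega), Nat.mod_eq_of_lt (by omega)] at h02
        exact hji h02.symm
    · intro hn
      exact absurd (Finset.mem_range.mpr hi) hn
  · rw [if_neg h]
    apply Finset.sum_eq_zero
    intro i hi
    rw [if_neg]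
    intro he
    exact h ⟨i, Finset.mem_range.mp hi, he⟩

open scoped Classical in
/-- entry formula -/
lemma entry {m p : ℕ} [Fact p.Prime] (hp : 8 ^ m ≤ p) (P Q : Vt m p) :
    ((Gr m p).adjMatrix ℝ + 1 : Matrix (Vt m p) (Vt m p) ℝ) P Q
      = (if P.2 = Q.2 then ((if P.1 = Q.1 then (1 : ℝ) else 0) - (wt P.1 Q.1 : ℝ)) else 0)
        + ∑ i ∈ Finset.range (wt P.1 Q.1),
          if P.2.1 * (i : ZMod p) + P.2.2 = Q.2.1 * i + Q.2.2 then (1 : ℝ) else 0 := by
  rw [Matrix.add_apply, SimpleGraph.adjMatrix_apply, Matrix.one_apply]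
  by_cases h2 : P.2 = Q.2
  · have hna : ¬ (Gr m p).Adj P Q := fun h => h.1 h2
    rw [if_neg hna, if_pos h2]
    have hs : (∑ i ∈ Finset.range (wt P.1 Q.1),
          if P.2.1 * (i : ZMod p) + P.2.2 = Q.2.1 * i + Q.2.2 then (1 : ℝ) else 0)
          = (wt P.1 Q.1 : ℝ) := by
      rw [h2]; simp
    rw [hs]
    by_cases h1 : P.1 = Q.1
    · have : P = Q := Prod.ext h1 h2
      rw [if_pos this, if_pos h1]; ring
    · have : P ≠ Q := fun h => h1 (by rw [h])
      rw [if_neg this, if_neg h1]; ring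
  · have hPQ : P ≠ Q := fun h => h2 (by rw [h])
    rw [if_neg h2, if_neg hPQ, count_eq hp P Q h2]
    have : (Gr m p).Adj P Q ↔ ∃ i : ℕ, i < wt P.1 Q.1 ∧
        P.2.1 * (i : ZMod p) + P.2.2 = Q.2.1 * i + Q.2.2 :=
      ⟨fun h => h.2, fun h => ⟨h2, h⟩⟩
    simp only [this]
    ring

/-! ### rank bound -/

/-- spanning family -/
noncomputable def fam (m p : ℕ) :
    ({T : Finset (Fin (3 * m)) // T.card ≤ m} × (ZMod p × ZMod p)) ⊕
      (EV m × (Fin (8 ^ m) × ZMod p)) → (Vt m p → ℝ)
  | Sum.inl Tu => fun P => if P.2 = Tu.2 then mono Tu.1.1 P.1 else 0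
  | Sum.inr Axy => fun P => if P.1 = Axy.1 ∧ P.2.1 * ((Axy.2.1 : ℕ) : ZMod p) + P.2.2 = Axy.2.2
      then 1 else 0

/-- the lift of a function on base vertices to the layer `u` -/
def lift {m p : ℕ} (u : ZMod p × ZMod p) : (EV m → ℝ) →ₗ[ℝ] (Vt m p → ℝ) where
  toFun f := fun P => if P.2 = u then f P.1 else 0
  map_add' f g := by
    funext P; by_cases h : P.2 = u <;> simp [h]
  map_smul' a f := by
    funext P; by_cases h : P.2 = u <;> simp [h]

lemma lift_mem {m p : ℕ} (u : ZMod p × ZMod p) {f : EV m → ℝ} (hf : f ∈ Wk m m) :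
    lift u f ∈ Submodule.span ℝ (Set.range (fam m p)) := by
  have h1 : lift u f ∈ Submodule.map (lift u) (Wk m m) := Submodule.mem_map_of_mem hf
  unfold Wk at h1
  rw [Submodule.map_span] at h1
  refine Submodule.span_mono ?_ h1
  rintro _ ⟨_, ⟨T, rfl⟩, rfl⟩
  exact ⟨Sum.inl (T, u), rfl⟩

open scoped Classical in
lemma col_mem {m p : ℕ} [Fact p.Prime] (hm : Odd m) (hp : 8 ^ m ≤ p) (Q : Vt m p) :
    (fun P => ((Gr m p).adjMatrix ℝ + 1 : Matrix (Vt m p) (Vt m p) ℝ) P Q)
      ∈ Submodule.span ℝ (Set.range (fam m p)) := by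
  have h1 := lift_mem (p := p) Q.2 (beta_mem hm Q.1)
  have h2 : (fun P : Vt m p => ∑ i ∈ Finset.range (wt P.1 Q.1),
          if P.2.1 * (i : ZMod p) + P.2.2 = Q.2.1 * i + Q.2.2 then (1 : ℝ) else 0)
      ∈ Submodule.span ℝ (Set.range (fam m p)) := by
    have : (fun P : Vt m p => ∑ i ∈ Finset.range (wt P.1 Q.1),
          if P.2.1 * (i : ZMod p) + P.2.2 = Q.2.1 * i + Q.2.2 then (1 : ℝ) else 0)
        = ∑ A : EV m, ∑ i : Fin (8 ^ m), (if (i : ℕ) < wt A Q.1 then (1 : ℝ) else 0) •
          fam m p (Sum.inr (A, (i, Q.2.1 * ((i : ℕ) : ZMod p) + Q.2.2))) := by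
      funext P
      simp only [Finset.sum_apply, Pi.smul_apply, smul_eq_mul, fam]
      rw [Finset.sum_eq_single P.1]
      · simp only [true_and]
        rw [Finset.sum_fin_eq_sum_range]
        rw [← Finset.sum_subset (Finset.range_subset_range.mpr (wt_le P.1 Q.1))]
        · apply Finset.sum_congr rfl
          intro i hi
          have hi' := Finset.mem_range.mp hi
          have := wt_le P.1 Q.1
          rw [dif_pos (by omega)]
          simp [hi']
        · intro i hi hi'
          have h3 := Finset.mem_range.mp hi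
          rw [dif_pos h3]
          simp only [Finset.mem_range, not_lt] at hi'
          simp [hi']
      · intro A _ hA
        apply Finset.sum_eq_zero
        intro i _
        rw [if_neg (c := P.1 = A ∧ _)]
        · ring
        · rintro ⟨h, _⟩; exact hA h.symm
      · intro h; exact absurd (Finset.mem_univ _) h
    rw [this]
    apply Submodule.sum_mem
    intro A _
    apply Submodule.sum_mem
    intro i _
    exact Submodule.smul_mem _ _ (Submodule.subset_span ⟨_, rfl⟩)
  have h3 := Submodule.add_mem _ h1 h2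
  convert h3 using 1
  funext P
  rw [entry hp]
  rfl

open scoped Classical in
lemma rank_le {m p : ℕ} [Fact p.Prime] (hm : Odd m) (hp : 8 ^ m ≤ p) :
    ((Gr m p).adjMatrix ℝ + 1 : Matrix (Vt m p) (Vt m p) ℝ).rank
      ≤ Fintype.card {T : Finset (Fin (3 * m)) // T.card ≤ m} * (p * p)
        + Fintype.card (EV m) * (8 ^ m * p) := by
  rw [Matrix.rank_eq_finrank_span_cols]
  have hle : Submodule.span ℝ (Set.range ((Gr m p).adjMatrix ℝ + 1 :
      Matrix (Vt m p) (Vt m p) ℝ).col) ≤ Submodule.span ℝ (Set.range (fam m p)) := by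
    rw [Submodule.span_le]
    rintro _ ⟨Q, rfl⟩
    exact col_mem hm hp Q
  refine (Submodule.finrank_mono hle).trans ?_
  refine (finrank_range_le_card (R := ℝ) (fam m p)).trans ?_
  simp [Fintype.card_sum, Fintype.card_prod, ZMod.card]



lemma rank_irrel {V : Type} [Fintype V] (G : SimpleGraph V) (i1 i2 : DecidableEq V)
    (j1 j2 : DecidableRel G.Adj) :
    (letI := i1; letI := j1; (G.adjMatrix ℝ + 1 : Matrix V V ℝ).rank)
      = (letI := i2; letI := j2; (G.adjMatrix ℝ + 1 : Matrix V V ℝ).rank) := by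
  obtain rfl : i1 = i2 := Subsingleton.elim _ _
  obtain rfl : j1 = j2 := Subsingleton.elim _ _
  rfl

/-! ### counting -/

lemma card_small (m : ℕ) :
    Fintype.card {T : Finset (Fin (3 * m)) // T.card ≤ m} * 4 ^ m ≤ 27 ^ m := by
  have h := Finset.sum_pow_mul_eq_add_pow (1 : ℕ) 2 (Finset.univ : Finset (Fin (3 * m)))
  rw [Finset.card_univ, Fintype.card_fin] at h
  have h27 : (1 + 2 : ℕ) ^ (3 * m) = 27 ^ m := by rw [pow_mul]; norm_num
  rw [h27] at h
  rw [← h, Fintype.card_subtype, Finset.card_eq_sum_ones, Finset.sum_mul]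
  rw [Finset.powerset_univ]
  refine le_trans ?_ (Finset.sum_le_sum_of_subset (Finset.filter_subset
    (fun T : Finset (Fin (3 * m)) => T.card ≤ m) Finset.univ))
  apply Finset.sum_le_sum
  intro T hT
  have hT' := (Finset.mem_filter.mp hT).2
  rw [one_mul, one_pow, one_mul]
  calc 4 ^ m = 2 ^ (2 * m) := by rw [pow_mul]; norm_num
    _ ≤ 2 ^ (3 * m - T.card) := Nat.pow_le_pow_right (by norm_num) (by omega)

lemma card_EV_le (m : ℕ) : Fintype.card (EV m) ≤ 8 ^ m := by
  refine (Fintype.card_subtype_le _).trans ?_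
  rw [Fintype.card_finset, Fintype.card_fin, pow_mul]; norm_num

lemma card_EV_ge {m : ℕ} (hm : 0 < m) : 8 ^ m ≤ 2 * Fintype.card (EV m) := by
  have h0 : (∑ T ∈ (Finset.univ : Finset (Fin (3 * m))).powerset, (-1 : ℤ) ^ T.card) = 0 := by
    apply Finset.sum_powerset_neg_one_pow_card_of_nonempty
    exact ⟨⟨0, by omega⟩, Finset.mem_univ _⟩
  have h1 : (∑ T : Finset (Fin (3 * m)), ((1 : ℤ) + (-1 : ℤ) ^ T.card))
      = 2 * (Fintype.card (EV m) : ℤ) := by
    rw [Fintype.card_subtype, Finset.card_filter]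
    push_cast
    rw [Finset.mul_sum]
    apply Finset.sum_congr rfl
    intro T _
    rcases Nat.even_or_odd T.card with h | h
    · rw [h.neg_one_pow, if_pos h]; norm_num
    · rw [h.neg_one_pow, if_neg (Nat.not_even_iff_odd.mpr h)]; norm_num
  rw [Finset.powerset_univ] at h0
  rw [Finset.sum_add_distrib, h0, Finset.sum_const, Finset.card_univ, Fintype.card_finset,
    Fintype.card_fin, pow_mul] at h1
  norm_num at h1
  have : ((8 ^ m : ℕ) : ℤ) = 2 * (Fintype.card (EV m) : ℤ) := by push_cast; linarith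
  omega

open scoped Classical in
/-- For each odd `m` a triangle-free graph with at least `2048 ^ m / 2` vertices
and rank at most `8 * 1728 ^ m`. -/
lemma exists_graph {m : ℕ} (hm : Odd m) :
    ∃ (V : Type) (_ : Fintype V) (G : SimpleGraph V), G.CliqueFree 3 ∧
      2048 ^ m ≤ 2 * Fintype.card V ∧
      (G.adjMatrix ℝ + 1 : Matrix V V ℝ).rank ≤ 8 * 1728 ^ m := by
  obtain ⟨p, hp, hlt, hle⟩ := Nat.exists_prime_lt_and_le_two_mul (16 ^ m)
    (by positivity)
  have : Fact p.Prime := ⟨hp⟩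
  refine ⟨Vt m p, inferInstance, Gr m p, Gr_cliqueFree hm.pos, ?_, ?_⟩
  · rw [Fintype.card_prod, Fintype.card_prod, ZMod.card]
    calc 2048 ^ m = 8 ^ m * (16 ^ m * 16 ^ m) := by
          rw [← mul_pow, ← mul_pow]; norm_num
      _ ≤ (2 * Fintype.card (EV m)) * (p * p) := by
          apply Nat.mul_le_mul (card_EV_ge hm.pos)
          exact Nat.mul_le_mul hlt.le hlt.le
      _ = 2 * (Fintype.card (EV m) * (p * p)) := by ring
  · have h8 : 8 ^ m ≤ p := by
      have : 8 ^ m ≤ 16 ^ m := Nat.pow_le_pow_left (by norm_num) m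
      omega
    have hr := rank_le hm h8
    have h1 : Fintype.card {T : Finset (Fin (3 * m)) // T.card ≤ m} * (p * p) ≤ 4 * 1728 ^ m := by
      calc Fintype.card {T : Finset (Fin (3 * m)) // T.card ≤ m} * (p * p)
          ≤ Fintype.card {T : Finset (Fin (3 * m)) // T.card ≤ m} *
              ((2 * 16 ^ m) * (2 * 16 ^ m)) := by
            apply Nat.mul_le_mul_left
            exact Nat.mul_le_mul hle hle
        _ = (Fintype.card {T : Finset (Fin (3 * m)) // T.card ≤ m} * 4 ^ m) * (4 * 64 ^ m) := by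
            have : (16 : ℕ) ^ m * 16 ^ m = 4 ^ m * 64 ^ m := by
              rw [← mul_pow, ← mul_pow]; norm_num
            calc _ = Fintype.card {T : Finset (Fin (3 * m)) // T.card ≤ m} * 4 *
                      (16 ^ m * 16 ^ m) := by ring
              _ = _ := by rw [this]; ring
        _ ≤ 27 ^ m * (4 * 64 ^ m) := Nat.mul_le_mul_right _ (card_small m)
        _ = 4 * (27 * 64) ^ m := by rw [mul_pow]; ring
        _ = 4 * 1728 ^ m := by norm_num
    have h2 : Fintype.card (EV m) * (8 ^ m * p) ≤ 2 * 1728 ^ m := by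
      calc Fintype.card (EV m) * (8 ^ m * p) ≤ 8 ^ m * (8 ^ m * (2 * 16 ^ m)) := by
            apply Nat.mul_le_mul (card_EV_le m)
            exact Nat.mul_le_mul_left _ hle
        _ = 2 * (8 * 8 * 16) ^ m := by rw [mul_pow, mul_pow]; ring
        _ ≤ 2 * 1728 ^ m := by
            apply Nat.mul_le_mul_left
            exact Nat.pow_le_pow_left (by norm_num) m
    have hr2 := hr.trans (Nat.add_le_add h1 h2)
    have h3 : 4 * 1728 ^ m + 2 * 1728 ^ m ≤ 8 * 1728 ^ m := by omega
    refine le_trans ?_ (hr2.trans h3)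
    exact le_of_eq (rank_irrel _ _ _ _ _)

open scoped Classical in
lemma rank_comap_le {V : Type} [Fintype V] (G : SimpleGraph V) {n : ℕ} (f : Fin n ↪ V) :
    ((G.comap f).adjMatrix ℝ + 1 : Matrix (Fin n) (Fin n) ℝ).rank
      ≤ (G.adjMatrix ℝ + 1 : Matrix V V ℝ).rank := by
  have h : ((G.comap f).adjMatrix ℝ + 1 : Matrix (Fin n) (Fin n) ℝ)
      = (G.adjMatrix ℝ + 1 : Matrix V V ℝ).submatrix f f := by
    ext i j
    simp only [Matrix.add_apply, Matrix.submatrix_apply, SimpleGraph.adjMatrix_apply,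
      SimpleGraph.comap_adj, Matrix.one_apply, f.injective.eq_iff]
  rw [h]
  exact Matrix.rank_submatrix_le _ _ _



lemma nu_le {d : ℕ} (hd2 : 2 ≤ d) {m n : ℕ} (hm : Odd m) (hn : 2 * n ≤ 2048 ^ m) :
    nu d n ≤ 8 * 1728 ^ m := by
  classical
  obtain ⟨V, _, G, hG, hV, hr⟩ := exists_graph hm
  have hcard : Fintype.card (Fin n) ≤ Fintype.card V := by
    rw [Fintype.card_fin]; omega
  obtain ⟨f⟩ := Function.Embedding.nonempty_of_card_le hcard
  have h1 := rank_comap_le G f
  have h2 : (G.comap f).cliqueNum ≤ d := by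
    by_contra hc
    push Not at hc
    obtain ⟨s, hs⟩ := (G.comap f).exists_isNClique_cliqueNum
    have h3 : (G.comap f).CliqueFree 3 := 
      hG.comap ⟨(SimpleGraph.Embedding.comap f G).toCopy⟩
    exact (h3.mono (by omega)) s hs
  have h5 : nu d n ≤ ((G.comap f).adjMatrix ℝ + 1 : Matrix (Fin n) (Fin n) ℝ).rank := by
    unfold nu
    apply Nat.sInf_le
    exact ⟨G.comap f, h2, rank_irrel _ _ _ _ _⟩
  exact h5.trans (le_trans (le_trans (le_of_eq (rank_irrel _ _ _ _ _)) h1) hr)

/-- main bound with explicit constants -/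
lemma nu_bound {d : ℕ} (hd2 : 2 ≤ d) {n : ℕ} (hn : 1 ≤ n) :
    (nu d n : ℝ) ≤ (16 * 1728 ^ 2) * (n : ℝ) ^ (Real.log 1728 / Real.log 2048) := by
  set α : ℝ := Real.log 1728 / Real.log 2048 with hα
  have hl : 0 < Real.log 2048 := Real.log_pos (by norm_num)
  have hl' : 0 < Real.log 1728 := Real.log_pos (by norm_num)
  have hα0 : 0 < α := div_pos hl' hl
  have hα1 : α ≤ 1 := by
    rw [hα, div_le_one hl]
    exact Real.log_le_log (by norm_num) (by norm_num)
  have hpow : (2048 : ℝ) ^ α = 1728 := by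
    rw [Real.rpow_def_of_pos (by norm_num), hα, mul_div_cancel₀ _ hl.ne',
      Real.exp_log (by norm_num)]
  have hn1 : (1 : ℝ) ≤ (n : ℝ) := by exact_mod_cast hn
  have hna : (1 : ℝ) ≤ (n : ℝ) ^ α := Real.one_le_rpow hn1 hα0.le
  have hex : ∃ j : ℕ, 2 * n ≤ 2048 ^ (2 * j + 1) := by
    refine ⟨n, ?_⟩
    calc 2 * n ≤ 2 * n + 1 := by omega
      _ ≤ 2048 ^ (2 * n + 1) := (Nat.lt_pow_self (by norm_num)).le
  let j := Nat.find hex
  have hj : 2 * n ≤ 2048 ^ (2 * j + 1) := Nat.find_spec hex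
  have hb := nu_le hd2 (odd_two_mul_add_one j) hj
  have hb' : (nu d n : ℝ) ≤ 8 * 1728 ^ (2 * j + 1) := by exact_mod_cast hb
  refine hb'.trans ?_
  rcases Nat.eq_zero_or_pos j with h0 | h0
  · rw [h0]
    norm_num
    linarith
  · have hmin : ¬ (2 * n ≤ 2048 ^ (2 * (j - 1) + 1)) := Nat.find_min hex (by omega)
    push Not at hmin
    have h1 : (1728 : ℝ) ^ (2 * (j - 1) + 1) ≤ 2 * (n : ℝ) ^ α := by
      calc (1728 : ℝ) ^ (2 * (j - 1) + 1) = ((2048 : ℝ) ^ α) ^ (2 * (j - 1) + 1) := by rw [hpow]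
        _ = ((2048 : ℝ) ^ (2 * (j - 1) + 1)) ^ α := by
            rw [← Real.rpow_natCast, ← Real.rpow_natCast, ← Real.rpow_mul (by norm_num),
              ← Real.rpow_mul (by norm_num), mul_comm]
        _ ≤ (2 * (n : ℝ)) ^ α := by
            apply Real.rpow_le_rpow (by positivity) _ hα0.le
            exact_mod_cast hmin.le
        _ = 2 ^ α * (n : ℝ) ^ α := Real.mul_rpow (by norm_num) (by positivity)
        _ ≤ 2 * (n : ℝ) ^ α := by
            apply mul_le_mul_of_nonneg_right _ (by positivity)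
            calc (2 : ℝ) ^ α ≤ 2 ^ (1 : ℝ) := Real.rpow_le_rpow_of_exponent_le (by norm_num) hα1
              _ = 2 := by norm_num
    have h2 : 2 * j + 1 = (2 * (j - 1) + 1) + 2 := by omega
    rw [h2, pow_add]
    nlinarith

theorem main (d : ℕ) (hd2 : 2 ≤ d) : ∃ c : ℝ, 1 / 50 ≤ c ∧
    (fun n : ℕ => (nu d n : ℝ)) =O[Filter.atTop] (fun n : ℕ => (n : ℝ) ^ (1 - c)) := by
  refine ⟨1 - Real.log 1728 / Real.log 2048, ?_, ?_⟩
  · have hl : 0 < Real.log 2048 := Real.log_pos (by norm_num)
    have h : Real.log 1728 / Real.log 2048 ≤ 49 / 50 := by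
      rw [div_le_iff₀ hl]
      have h1 : (50 : ℕ) * Real.log 1728 ≤ (49 : ℕ) * Real.log 2048 := by
        rw [← Real.log_pow, ← Real.log_pow]
        exact Real.log_le_log (by norm_num) (by norm_num)
      push_cast at h1
      linarith
    linarith
  · refine Asymptotics.IsBigO.of_bound (16 * 1728 ^ 2) ?_
    filter_upwards [Filter.eventually_ge_atTop 1] with n hn
    have := nu_bound hd2 hn
    rw [Real.norm_of_nonneg (by positivity), Real.norm_of_nonneg (by positivity)]
    rw [sub_sub_cancel]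
    exact this

end Pool.Agent.MP_95a368_co
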